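import Pool.Agent.Helper7.FIN.Fin

/-! FINP: the frame, and the theorem. -/

set_option autoImplicit false

namespace Pool.Agent.Helper7.FIN

open Finset Filter Topology Pool.Agent.Helper69.RK Pool.Agent.Helper31.EC Pool.Agent.Helper31.EC.Sp
open Pool.Agent.Helper40.EL Pool.Agent.Helper89.LX Pool.Agent.Helper3.LF Pool.Agent.Helper84.MT
open Pool.Agent.Helper36.AM (Frm)
open Pool.Agent.Helper85.FRM (TwF TwOk Fr Sta co co_eq N maj coeff_le_maj maj_nonneg FINP wd)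

noncomputable section

variable {S : Sp} {M : ℕ} {E : ℕ → ℕ} {ι : Type}

section
variable (Q : S.VV M) (w : Fin M → ℝ) (c : ℝ) (t : ∀ k, TwF (S.F k) M)

/-- the scaled coordinates -/
def xv (k : ℕ) (ω : ((L0 t).sp.F k).Ω) (j : Fin M) : ℝ :=
  co (2 ^ (S.F k).n) w c ((t k).P 1 ω) (((L0 t).pj.vv Q).v k ω) j

open Classical in
/-- the coordinates of the frame -/
def Xv (k : ℕ) (ω : ((L0 t).sp.F k).Ω) (j : Fin M) : ℝ := if gd w t k ω then xv Q w c t k ω j else 0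

open Classical in
/-- the polynomials of the frame -/
def Pv (k : ℕ) (ω : ((L0 t).sp.F k).Ω) (j : Fin M) : MvPolynomial (Fin M) ℝ :=
  if gd w t k ω then usc (fun i => (2 ^ (S.F k).n : ℝ) ^ (c * w i)) ((t k).P 1 ω j) else
    MvPolynomial.C (S.dl 1 k * (⌊((L0 t).pj.vv Q).v k ω j / S.dl 1 k⌋ : ℝ))

theorem Pv_pos {k : ℕ} {ω : ((L0 t).sp.F k).Ω} (hg : gd w t k ω) (j : Fin M) :
    Pv Q w c t k ω j = usc (fun i => (2 ^ (S.F k).n : ℝ) ^ (c * w i)) ((t k).P 1 ω j) := if_pos hg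

theorem Pv_neg {k : ℕ} {ω : ((L0 t).sp.F k).Ω} (hg : ¬ gd w t k ω) (j : Fin M) :
    Pv Q w c t k ω j = MvPolynomial.C (S.dl 1 k * (⌊((L0 t).pj.vv Q).v k ω j / S.dl 1 k⌋ : ℝ)) := if_neg hg

theorem Xv_pos {k : ℕ} {ω : ((L0 t).sp.F k).Ω} (hg : gd w t k ω) (j : Fin M) :
    Xv Q w c t k ω j = xv Q w c t k ω j := if_pos hg

theorem Xv_neg {k : ℕ} {ω : ((L0 t).sp.F k).Ω} (hg : ¬ gd w t k ω) (j : Fin M) :
    Xv Q w c t k ω j = 0 := if_neg hg

theorem two_pow_le (k : ℕ) : (1 : ℝ) ≤ 2 ^ (S.F k).n := Real.one_le_rpow (by norm_num) (S.F k).pos.le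

theorem q_dl (k : ℕ) (r : ℝ) : (2 ^ (S.F k).n : ℝ) ^ r * S.dl r k = 1 := by
  unfold Sp.dl
  rw [← Real.rpow_mul (by norm_num), ← Real.rpow_add (by norm_num)]
  have : (S.F k).n * r + -(r * (S.F k).n) = 0 := by ring
  rw [this, Real.rpow_zero]

theorem abs_fl (k : ℕ) (x : ℝ) : |x - S.dl 1 k * (⌊x / S.dl 1 k⌋ : ℝ)| ≤ S.dl 1 k := by
  have hd := S.dl_pos 1 k
  have h1 := Int.floor_le (x / S.dl 1 k)
  have h2 := Int.lt_floor_add_one (x / S.dl 1 k)
  rw [le_div_iff₀ hd] at h1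
  rw [div_lt_iff₀ hd] at h2
  rw [abs_le]
  constructor <;> nlinarith

end

section frm
variable [Finite ι] {s : MSys S M E ι} {w : Fin M → ℝ} {c : ℝ} {t : ∀ k, TwF (S.F k) M}
  (h : TwOk s w (fun i => i * c) 1 M t)
include h

theorem sta {η : ℝ} (hη : 0 < η) : ∀ᶠ k in UF, ∀ ω : (t k).T.Ω, (t k).T.μ ω ≠ 0 → (t k).A ω → ∀ l : Fin M,
    N (2 ^ (S.F k).n) w c ((t k).P 1 ω l) ≤ 2 ^ (η * (S.F k).n) ∧
      |co (2 ^ (S.F k).n) w c ((t k).P 1 ω) (s.Q.v k ((t k).p.π ω)) l| ≤ 2 ^ (η * (S.F k).n) := by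
  filter_upwards [h η hη] with k hk ω hω hA l
  have h1 := hk.sta ω hω hA
  have h2 := h1.pn 1 le_rfl l l.isLt
  have h3 := h1.yn 1 le_rfl l l.isLt
  have e : ((1 : ℕ) : ℝ) * c = c := by rw [Nat.cast_one, one_mul]
  simp only [e] at h2 h3
  exact ⟨h2, h3⟩

/-- the coordinates are tame -/
def XX : ((L0 t).addW (Wp s.Q w t)).sp.VV M where
  v := Xv s.Q w c t
  bd := by
    obtain ⟨K, hK, hb⟩ := exists_sub (S := (L0 t).sp) (fun k ω => ∑ j, |xv s.Q w c t k ω j|)
      (gd w t) (fun η hη => by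
        filter_upwards [sta h (η := η / 2) (by linarith), ((L0 t).sp.Sub_const (Nat.cast_nonneg M)).eventually_le
          (show 0 < η / 2 by linarith)] with k h1 h2 ω hω hg
        have e0 : ((L0 t).sp.F k).n = (S.F k).n := (t k).hn
        rw [e0] at h2
        have h3 : ∑ j, |xv s.Q w c t k ω j| ≤ ∑ _j : Fin M, (2 : ℝ) ^ (η / 2 * (S.F k).n) :=
          Finset.sum_le_sum fun j _ => (h1 ω hω hg.1 j).2
        rw [Finset.sum_const, Finset.card_univ, Fintype.card_fin, nsmul_eq_mul] at h3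
        refine h3.trans ?_
        have h4 : (2 : ℝ) ^ (η * (S.F k).n) = 2 ^ (η / 2 * (S.F k).n) * 2 ^ (η / 2 * (S.F k).n) := by
          rw [← Real.rpow_add (by norm_num)]
          congr 1
          ring
        have e1 : (2 : ℝ) ^ (η * ((L0 t).sp.F k).n) = 2 ^ (η * (S.F k).n) := by rw [e0]
        refine le_of_le_of_eq ?_ e1.symm
        rw [h4]
        exact mul_le_mul_of_nonneg_right (by linarith) (by positivity))
    refine ⟨K, hK, Eventually.of_forall fun k ω hω j => ?_⟩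
    by_cases hg : gd w t k ω
    · have h1 := (hb k).2 ω hω hg
      have h2 : |xv s.Q w c t k ω j| ≤ ∑ j, |xv s.Q w c t k ω j| :=
        Finset.single_le_sum (f := fun j => |xv s.Q w c t k ω j|) (fun _ _ => abs_nonneg _) (Finset.mem_univ j)
      rw [Xv_pos s.Q w c t hg]
      exact h2.trans h1
    · rw [Xv_neg s.Q w c t hg, abs_zero]
      exact (hb k).1

theorem coef_bd : ∃ K : ℕ → ℝ, S.Sub K ∧ ∀ᶠ k in UF, ∀ ω, ((L0 t).sp.F k).μ ω ≠ 0 → ∀ j a,
    |(Pv s.Q w c t k ω j).coeff a| ≤ K k := by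
  obtain ⟨K, hK, hb⟩ := exists_sub (S := (L0 t).sp) (fun k ω => ∑ j, N (2 ^ (S.F k).n) w c ((t k).P 1 ω j))
    (gd w t) (fun η hη => by
      filter_upwards [sta h (η := η / 2) (by linarith), ((L0 t).sp.Sub_const (Nat.cast_nonneg M)).eventually_le
        (show 0 < η / 2 by linarith)] with k h1 h2 ω hω hg
      have e0 : ((L0 t).sp.F k).n = (S.F k).n := (t k).hn
      rw [e0] at h2
      have h3 : ∑ j, N (2 ^ (S.F k).n) w c ((t k).P 1 ω j) ≤ ∑ _j : Fin M, (2 : ℝ) ^ (η / 2 * (S.F k).n) :=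
        Finset.sum_le_sum fun j _ => (h1 ω hω hg.1 j).1
      rw [Finset.sum_const, Finset.card_univ, Fintype.card_fin, nsmul_eq_mul] at h3
      refine h3.trans ?_
      have h4 : (2 : ℝ) ^ (η * (S.F k).n) = 2 ^ (η / 2 * (S.F k).n) * 2 ^ (η / 2 * (S.F k).n) := by
        rw [← Real.rpow_add (by norm_num)]
        congr 1
        ring
      have e1 : (2 : ℝ) ^ (η * ((L0 t).sp.F k).n) = 2 ^ (η * (S.F k).n) := by rw [e0]
      refine le_of_le_of_eq ?_ e1.symm
      rw [h4]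
      exact mul_le_mul_of_nonneg_right (by linarith) (by positivity))
  obtain ⟨L, hL, hl⟩ := ((L0 t).pj.vv s.Q).bd
  refine ⟨fun k => K k + (L k + 1), ((sp_Sub _).1 hK).add (((sp_Sub _).1 hL).add (S.Sub_const zero_le_one)), ?_⟩
  filter_upwards [hl, hL.1] with k h1 h2 ω hω j a
  have hK0 := (hb k).1
  by_cases hg : gd w t k ω
  · rw [Pv_pos s.Q w c t hg, coeff_usc, abs_mul]
    have hq := two_pow_le (S := S) k
    have hr : ∀ i, 0 ≤ (2 ^ (S.F k).n : ℝ) ^ (c * w i) := fun i => Real.rpow_nonneg (by linarith) _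
    have h3 := coeff_le_maj hr ((t k).P 1 ω j) a
    have h4 := (hb k).2 ω hω hg
    have h5 : N (2 ^ (S.F k).n) w c ((t k).P 1 ω j) ≤ ∑ j, N (2 ^ (S.F k).n) w c ((t k).P 1 ω j) :=
      Finset.single_le_sum (f := fun j => N (2 ^ (S.F k).n) w c ((t k).P 1 ω j)) (fun _ _ => maj_nonneg hr _)
        (Finset.mem_univ j)
    rw [abs_of_nonneg (Finset.prod_nonneg fun i _ => pow_nonneg (hr i) _)]
    have h6 : maj (fun i => (2 ^ (S.F k).n : ℝ) ^ (c * w i)) ((t k).P 1 ω j) = N (2 ^ (S.F k).n) w c ((t k).P 1 ω j) :=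
      rfl
    rw [h6] at h3
    linarith
  · classical
    rw [Pv_neg s.Q w c t hg, MvPolynomial.coeff_C]
    have h3 := h1 ω hω j
    have h4 := abs_fl (S := S) k (((L0 t).pj.vv s.Q).v k ω j)
    have h5 : S.dl 1 k ≤ 1 := by
      have := S.dl_anti (show (0 : ℝ) ≤ 1 by norm_num) k
      rwa [dl_zero] at this
    by_cases ha : 0 = a
    · rw [if_pos ha]
      rw [abs_le] at h3 h4 ⊢
      constructor <;> linarith
    · rw [if_neg ha, abs_zero]
      linarith

/-- THE FRAME -/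
def frm (hc : 0 < c) : Frm s.Q ((L0 t).addW (Wp s.Q w t)) (fun j => w j * c) where
  X := XX h
  P := Pv s.Q w c t
  tri := by
    intro k ω j i hi
    change i ∈ (Pv s.Q w c t k ω j).vars at hi
    by_cases hg : gd w t k ω
    · rw [Pv_pos s.Q w c t hg] at hi
      exact hg.2.vars j j.isLt i (usc_vars _ _ hi)
    · rw [Pv_neg s.Q w c t hg, MvPolynomial.vars_C] at hi
      exact absurd hi (Finset.notMem_empty _)
  red := by
    intro k ω j a ha ha0
    change a ∈ (Pv s.Q w c t k ω j).support at ha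
    by_cases hg : gd w t k ω
    · rw [Pv_pos s.Q w c t hg] at ha
      have h1 := hg.2.wd j j.isLt a (usc_support _ _ ha)
      unfold wd at h1
      have h2 : ∑ i, (a i : ℝ) * (w i * c) = (∑ i, (a i : ℝ) * w i) * c := by
        rw [Finset.sum_mul]
        exact Finset.sum_congr rfl fun i _ => by ring
      rw [h2]
      exact mul_lt_mul_of_pos_right h1 hc
    · classical
      rw [Pv_neg s.Q w c t hg, MvPolynomial.mem_support_iff, MvPolynomial.coeff_C, if_neg (Ne.symm ha0)] at ha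
      exact absurd rfl ha
  fn := by
    filter_upwards [h 1 one_pos] with k hk ω ω' h1 h2 h3 h4
    have h5 : (t k).V 1 ω ω' := h4.1
    have h6 : Wp s.Q w t k ω ω' := h4.2
    funext j
    by_cases hg : gd w t k ω
    · rw [Pv_pos s.Q w c t hg, Pv_pos s.Q w c t (Wp_gd s.Q w t h6 hg), hk.meas 1 le_rfl ω ω' h1 h2 h3 h5]
    · have hg' : ¬ gd w t k ω' := fun h => hg (Wp_gd s.Q w t (Setoid.symm' _ h6) h)
      rw [Pv_neg s.Q w c t hg, Pv_neg s.Q w c t hg', Wp_cell s.Q w t h6 hg]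
  bd := coef_bd h
  pt := by
    refine ⟨fun _ => 1, S.Sub_const zero_le_one, Eventually.of_forall fun k ω hω j => ?_⟩
    change |((L0 t).pj.vv s.Q).v k ω j - (MvPolynomial.eval (fun i => S.dl (w i * c) k * Xv s.Q w c t k ω i)
      (Pv s.Q w c t k ω j) + S.dl (w j * c) k * Xv s.Q w c t k ω j)| ≤ 1 * S.dl 1 k
    by_cases hg : gd w t k ω
    · rw [Pv_pos s.Q w c t hg, eval_usc]
      have h1 : (fun i => (2 ^ (S.F k).n : ℝ) ^ (c * w i) * (S.dl (w i * c) k * Xv s.Q w c t k ω i)) =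
          co (2 ^ (S.F k).n) w c ((t k).P 1 ω) (((L0 t).pj.vv s.Q).v k ω) := by
        funext i
        rw [Xv_pos s.Q w c t hg, ← mul_assoc, mul_comm c, q_dl, one_mul]
        rfl
      have h2 := co_eq c (q := 2 ^ (S.F k).n) (w := w) (((L0 t).pj.vv s.Q).v k ω)
        (hg.2.vars j j.isLt)
      have h3 : S.dl (w j * c) k * Xv s.Q w c t k ω j = ((L0 t).pj.vv s.Q).v k ω j - MvPolynomial.eval
          (co (2 ^ (S.F k).n) w c ((t k).P 1 ω) (((L0 t).pj.vv s.Q).v k ω)) ((t k).P 1 ω j) := by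
        rw [Xv_pos s.Q w c t hg]
        unfold xv
        rw [h2, ← mul_assoc, mul_comm (S.dl (w j * c) k), q_dl, one_mul]
      rw [h1, h3]
      have h4 : ∀ a b : ℝ, |a - (b + (a - b))| = 0 := fun a b => by
        have : a - (b + (a - b)) = 0 := by ring
        rw [this, abs_zero]
      rw [h4, one_mul]
      exact (S.dl_pos 1 k).le
    · rw [Pv_neg s.Q w c t hg, MvPolynomial.eval_C, Xv_neg s.Q w c t hg, mul_zero, add_zero, one_mul]
      exact abs_fl k _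

end frm

theorem finp : FINP := by
  intro S M E ι _ s w c _ hc _ t h
  exact ⟨(L0 t).addW (Wp s.Q w t), frm h hc, isKap1 h⟩

end

end Pool.Agent.Helper7.FIN
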