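import Pool.Agent.Helper85.FRM.St
import Pool.Agent.Helper59.LF.Add

/-! FINP, auxiliary: tame suprema from bounds for every `η`; unscaling of polynomials. -/

set_option autoImplicit false

namespace Pool.Agent.Helper7.FIN

open Finset Filter Topology Pool.Agent.Helper69.RK Pool.Agent.Helper31.EC Pool.Agent.Helper31.EC.Sp

noncomputable section

section sub

variable {S : Sp}

theorem sub_of_eta {K : ℕ → ℝ} (h0 : ∀ᶠ k in UF, 0 ≤ K k)
    (h : ∀ η : ℝ, 0 < η → ∀ᶠ k in UF, K k ≤ 2 ^ (η * (S.F k).n)) : S.Sub K := by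
  refine ⟨h0, ?_⟩
  rw [Metric.tendsto_nhds]
  intro ε hε
  have h1 := S.div_n_tendsto 2
  rw [Metric.tendsto_nhds] at h1
  filter_upwards [h0, h (ε / 4) (by linarith), h1 (ε / 2) (by linarith)] with k a b c
  have hn := (S.F k).pos
  have h2 : (1 : ℝ) ≤ 2 ^ (ε / 4 * (S.F k).n) := Real.one_le_rpow (by norm_num) (by positivity)
  have h3 : Real.logb 2 (K k + 2) ≤ ε / 4 * (S.F k).n + 2 := by
    calc Real.logb 2 (K k + 2) ≤ Real.logb 2 (2 ^ (ε / 4 * (S.F k).n) * 2 ^ (2 : ℝ)) :=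
          Real.logb_le_logb_of_le (by norm_num) (by linarith) (by
            have : (2 : ℝ) ^ (2 : ℝ) = 4 := by norm_num
            rw [this]; linarith)
      _ = _ := by rw [← Real.rpow_add (by norm_num : (0 : ℝ) < 2), Real.logb_rpow (by norm_num) (by norm_num)]
  have h4 : 0 ≤ Real.logb 2 (K k + 2) := Real.logb_nonneg (by norm_num) (by linarith)
  rw [Real.dist_eq, sub_zero, abs_of_nonneg (div_nonneg h4 hn.le)]
  rw [Real.dist_eq, sub_zero, abs_of_nonneg (div_nonneg (by norm_num) hn.le)] at c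
  have h5 : Real.logb 2 (K k + 2) / (S.F k).n ≤ ε / 4 + 2 / (S.F k).n := by
    have h6 := div_le_div_of_nonneg_right h3 hn.le
    rwa [add_div, mul_div_cancel_right₀ _ hn.ne'] at h6
  linarith

/-- one tame bound -/
theorem exists_sub (F : ∀ k, (S.F k).Ω → ℝ) (A : ∀ k, (S.F k).Ω → Prop)
    (h : ∀ η : ℝ, 0 < η → ∀ᶠ k in UF, ∀ ω, (S.F k).μ ω ≠ 0 → A k ω → F k ω ≤ 2 ^ (η * (S.F k).n)) :
    ∃ K : ℕ → ℝ, S.Sub K ∧ ∀ k, 0 ≤ K k ∧ ∀ ω, (S.F k).μ ω ≠ 0 → A k ω → F k ω ≤ K k := by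
  refine ⟨fun k => ⨆ ω : {ω : (S.F k).Ω // (S.F k).μ ω ≠ 0 ∧ A k ω}, max (F k ω.1) 0, ?_, fun k => ⟨?_, ?_⟩⟩
  · refine sub_of_eta (Eventually.of_forall fun k => Real.iSup_nonneg fun ω => le_max_right _ _) fun η hη => ?_
    filter_upwards [h η hη] with k hk
    exact Real.iSup_le (fun ω => max_le (hk ω.1 ω.2.1 ω.2.2) (by positivity)) (by positivity)
  · exact Real.iSup_nonneg fun ω => le_max_right _ _
  · intro ω h1 h2
    exact (le_max_left _ _).trans (le_ciSup (f := fun ω : {ω : (S.F k).Ω // (S.F k).μ ω ≠ 0 ∧ A k ω} =>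
      max (F k ω.1) 0) (Set.finite_range _).bddAbove ⟨ω, h1, h2⟩)

end sub

/-! ### unscaling -/

open MvPolynomial

variable {σ : Type*} [Fintype σ]

/-- the polynomial in the unscaled variables: the coefficient of `x^a` is multiplied by `r^a` -/
def usc (r : σ → ℝ) (P : MvPolynomial σ ℝ) : MvPolynomial σ ℝ :=
  ∑ a ∈ P.support, monomial a (P.coeff a * ∏ i, r i ^ a i)

theorem coeff_usc (r : σ → ℝ) (P : MvPolynomial σ ℝ) (b : σ →₀ ℕ) :
    (usc r P).coeff b = P.coeff b * ∏ i, r i ^ b i := by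
  classical
  unfold usc
  rw [coeff_sum]
  simp only [coeff_monomial]
  rw [Finset.sum_ite_eq' P.support b]
  by_cases hb : b ∈ P.support
  · rw [if_pos hb]
  · rw [if_neg hb, notMem_support_iff.mp hb, zero_mul]

theorem usc_support (r : σ → ℝ) (P : MvPolynomial σ ℝ) : (usc r P).support ⊆ P.support := by
  intro b hb
  rw [mem_support_iff, coeff_usc] at hb
  rw [mem_support_iff]
  intro h
  rw [h, zero_mul] at hb
  exact hb rfl

theorem usc_vars (r : σ → ℝ) (P : MvPolynomial σ ℝ) : (usc r P).vars ⊆ P.vars := by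
  intro i hi
  obtain ⟨a, ha, hia⟩ := (mem_vars_iff_mem_support i).mp hi
  exact (mem_vars_iff_mem_support i).mpr ⟨a, usc_support r P ha, hia⟩

theorem eval_usc (r : σ → ℝ) (P : MvPolynomial σ ℝ) (x : σ → ℝ) :
    eval x (usc r P) = eval (fun i => r i * x i) P := by
  unfold usc
  rw [map_sum, eval_eq']
  refine Finset.sum_congr rfl fun a _ => ?_
  rw [eval_monomial, mul_assoc]
  congr 1
  rw [Finsupp.prod_fintype _ _ (fun i => pow_zero _), ← Finset.prod_mul_distrib]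
  exact Finset.prod_congr rfl fun i _ => (mul_pow _ _ _).symm

end

end Pool.Agent.Helper7.FIN
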