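import Pool.Agent.Helper7.FIN.Au
import Pool.Agent.Helper3.LF.Win

/-! FINP: from an exact tower with one window and all layers to the frame of a label `kappa_c`. -/

set_option autoImplicit false

namespace Pool.Agent.Helper7.FIN

open Finset Filter Topology Pool.Agent.Helper69.RK Pool.Agent.Helper31.EC Pool.Agent.Helper31.EC.Sp
open Pool.Agent.Helper40.EL Pool.Agent.Helper89.LX Pool.Agent.Helper3.LF Pool.Agent.Helper84.MT
open Pool.Agent.Helper36.AM (Frm)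
open Pool.Agent.Helper85.FRM (TwF TwOk Fr Sta co co_eq N maj coeff_le_maj maj_nonneg FINP)

noncomputable section

variable {S : Sp} {M : ℕ} {E : ℕ → ℕ} {ι : Type}

/-- the label of the window one -/
def L0 (t : ∀ k, TwF (S.F k) M) : Lab S := fun k => (t k).lab 1

/-- good points -/
def gd (w : Fin M → ℝ) (t : ∀ k, TwF (S.F k) M) (k : ℕ) (ω : ((L0 t).sp.F k).Ω) : Prop :=
  (t k).A ω ∧ Fr w M ((t k).P 1 ω)

section kap
variable [Finite ι] {s : MSys S M E ι} {w : Fin M → ℝ} {c : ℝ} {t : ∀ k, TwF (S.F k) M}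
  (h : TwOk s w (fun i => i * c) 1 M t)
include h

theorem leak0 : (L0 t).DMf (s.cnd c) := by
  intro i
  unfold Nul
  rw [Metric.tendsto_nhds]
  intro ε hε
  filter_upwards [h (ε / 2) (by linarith)] with k hk
  have hn := (S.F k).pos
  have h1 : ((t k).lab 1).leak (s.cnd (((1 : ℕ) : ℝ) * c) i k) ≤ ε / 2 * (S.F k).n := hk.leak 1 le_rfl le_rfl i
  rw [Nat.cast_one, one_mul] at h1
  have h2 : 0 ≤ ((t k).lab 1).leak (s.cnd c i k) := FLab.leak_nonneg _ _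
  have h3 : (L0 t k).leak (s.cnd c i k) = ((t k).lab 1).leak (s.cnd c i k) := rfl
  rw [Real.dist_eq, sub_zero, h3, abs_of_nonneg (div_nonneg h2 hn.le), div_lt_iff₀ hn]
  nlinarith

theorem isKap0 : s.IsKap c (L0 t) := by
  refine ⟨leak0 h, fun l' hl' => ?_⟩
  refine ((s.kap_isKap c).2 l' hl').trans (le_of_forall_pos_le_add fun ε hε => ?_)
  have h2 : (s.kap c).info - ε ≤ (L0 t).info := by
    refine const_le_ul (Lab.DMf.ub (leak0 h) (i := none) (pcd_Bd s.Q)) ?_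
    filter_upwards [h ε hε] with k hk
    have h1 : (s.kap (((1 : ℕ) : ℝ) * c)).info - ε ≤ ((t k).lab 1).info / (S.F k).n := hk.info 1 le_rfl le_rfl
    rw [Nat.cast_one, one_mul] at h1
    exact h1
  linarith

theorem typ0 : Sp.Typ (S := (L0 t).sp) (gd w t) := by
  unfold Sp.Typ
  rw [Metric.tendsto_nhds]
  intro ε hε
  filter_upwards [h (ε / 2) (by linarith)] with k hk
  have h1 : (t k).T.pb (fun ω => ¬ (t k).A ω) ≤ ε / 2 := hk.typ
  have h2 : (t k).T.pb (fun ω => ¬ gd w t k ω) ≤ (t k).T.pb (fun ω => ¬ (t k).A ω) :=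
    FSp.pb_mono (F := (t k).T) fun ω _ a b => a ⟨b, hk.fr 1 ω⟩
  have h3 : 0 ≤ (t k).T.pb (fun ω => ¬ gd w t k ω) := FSp.pb_nonneg _ _
  have h4 : mass (res ((L0 t).sp.F k).μ (fun ω => ¬ gd w t k ω)) = (t k).T.pb (fun ω => ¬ gd w t k ω) := rfl
  rw [Real.dist_eq, sub_zero, h4, abs_of_nonneg h3]
  linarith

end kap

section Y
variable (Q : S.VV M) (w : Fin M → ℝ) (t : ∀ k, TwF (S.F k) M)

open Classical in
/-- zero at the good points, the point at the bad ones -/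
def Yv : (L0 t).sp.VV (M + 1) where
  v := fun k ω => if gd w t k ω then 0 else Fin.cons 1 (((L0 t).pj.vv Q).v k ω)
  bd := by
    obtain ⟨K, hK, hb⟩ := ((L0 t).pj.vv Q).bd
    refine ⟨fun k => 1 + K k, (Sub_const _ zero_le_one).add hK, ?_⟩
    filter_upwards [hb, hK.1] with k h1 h2 ω hω i
    by_cases hg : gd w t k ω
    · rw [if_pos hg]
      show |(0 : ℝ)| ≤ _
      rw [abs_zero]
      linarith
    · rw [if_neg hg]
      refine Fin.cases ?_ (fun j => ?_) i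
      · rw [Fin.cons_zero, abs_one]
        linarith
      · rw [Fin.cons_succ]
        have := h1 ω hω j
        linarith

theorem Yv_pos {k : ℕ} {ω : ((L0 t).sp.F k).Ω} (hg : gd w t k ω) : (Yv Q w t).v k ω = 0 := if_pos hg

theorem Yv_neg {k : ℕ} {ω : ((L0 t).sp.F k).Ω} (hg : ¬ gd w t k ω) :
    (Yv Q w t).v k ω = Fin.cons 1 (((L0 t).pj.vv Q).v k ω) := if_neg hg

/-- the partition -/
def Wp (k : ℕ) : Setoid ((L0 t).sp.F k).Ω := Setoid.ker ((Yv Q w t).cellv 1 k)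

theorem Wp_gd {k : ℕ} {ω ω' : ((L0 t).sp.F k).Ω} (hW : Wp Q w t k ω ω') (hg : gd w t k ω) : gd w t k ω' := by
  by_contra hg'
  have h1 : (Yv Q w t).cellv 1 k ω 0 = (Yv Q w t).cellv 1 k ω' 0 := congrFun hW 0
  have h2 : (Yv Q w t).cellv 1 k ω 0 = ⌊(Yv Q w t).v k ω 0 / (L0 t).sp.dl 1 k⌋ := rfl
  have h3 : (Yv Q w t).cellv 1 k ω' 0 = ⌊(Yv Q w t).v k ω' 0 / (L0 t).sp.dl 1 k⌋ := rfl
  rw [h2, h3, Yv_pos Q w t hg, Yv_neg Q w t hg', Fin.cons_zero, Pi.zero_apply, zero_div, Int.floor_zero] at h1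
  have h4 := (L0 t).sp.dl_pos 1 k
  have h5 : (L0 t).sp.dl 1 k ≤ 1 := by
    have := (L0 t).sp.dl_anti (show (0 : ℝ) ≤ 1 by norm_num) k
    rwa [dl_zero] at this
  have h6 : (1 : ℤ) ≤ ⌊(1 : ℝ) / (L0 t).sp.dl 1 k⌋ := by
    rw [Int.le_floor, Int.cast_one, le_div_iff₀ h4]
    linarith
  omega

theorem Wp_cell {k : ℕ} {ω ω' : ((L0 t).sp.F k).Ω} (hW : Wp Q w t k ω ω') (hg : ¬ gd w t k ω) (j : Fin M) :
    ⌊((L0 t).pj.vv Q).v k ω j / S.dl 1 k⌋ = ⌊((L0 t).pj.vv Q).v k ω' j / S.dl 1 k⌋ := by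
  have hg' : ¬ gd w t k ω' := fun h => hg (Wp_gd Q w t (Setoid.symm' _ hW) h)
  have h1 : (Yv Q w t).cellv 1 k ω j.succ = (Yv Q w t).cellv 1 k ω' j.succ := congrFun hW j.succ
  have h2 : (Yv Q w t).cellv 1 k ω j.succ = ⌊(Yv Q w t).v k ω j.succ / (L0 t).sp.dl 1 k⌋ := rfl
  have h3 : (Yv Q w t).cellv 1 k ω' j.succ = ⌊(Yv Q w t).v k ω' j.succ / (L0 t).sp.dl 1 k⌋ := rfl
  rw [h2, h3, Yv_neg Q w t hg, Yv_neg Q w t hg', Fin.cons_succ, Fin.cons_succ, sp_dl] at h1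
  exact h1

end Y

section kap
variable [Finite ι] {s : MSys S M E ι} {w : Fin M → ℝ} {c : ℝ} {t : ∀ k, TwF (S.F k) M}
  (h : TwOk s w (fun i => i * c) 1 M t)
include h

theorem nulW (B : ∀ k, FL ((L0 t) k).T) :
    Nul S (fun k => Pool.Agent.Helper31.EC.h (fc (Wp s.Q w t k) : FL ((L0 t) k).T) (B k)) := by
  obtain ⟨f, hf, hf1⟩ := ul_rt_cell_le (Yv s.Q w t) 1 0 le_rfl (fun _ => ⊤) (gd w t) (typ0 h) (fun _ => 0)
    (Sub_const _ le_rfl) (Eventually.of_forall fun k ω ω' _ _ hg hg' _ i => by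
      rw [Yv_pos s.Q w t hg, Yv_pos s.Q w t hg', Pi.zero_apply, sub_zero, abs_zero, zero_mul])
  rw [mul_zero] at hf
  refine tendsto_of_tendsto_of_tendsto_of_le_of_le' tendsto_const_nhds hf ?_ ?_
  · exact Eventually.of_forall fun k => div_nonneg (h_nonneg _ _) (S.F k).pos.le
  · filter_upwards [hf1] with k hk
    refine le_trans ?_ hk
    have h1 : Pool.Agent.Helper31.EC.h (fc (Wp s.Q w t k) : FL ((L0 t) k).T) (B k) ≤
        (t k).T.e (Wp s.Q w t k) (⊤ ⊓ (t k).T.Z) := (h_anti (by exact bot_le)).trans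
      (le_of_eq (h_fc (F := (t k).T) (Wp s.Q w t k) ⊤))
    have h2 : (L0 t).sp.rt (fun k => Setoid.ker ((Yv s.Q w t).cellv 1 k)) (fun _ => ⊤) k =
      (t k).T.e (Wp s.Q w t k) (⊤ ⊓ (t k).T.Z) / (t k).T.n := rfl
    rw [h2, (t k).hn]
    exact div_le_div_of_nonneg_right h1 (S.F k).pos.le

theorem isKap1 : s.IsKap c ((L0 t).addW (Wp s.Q w t)) :=
  ((isKap0 h).fun_small (Wp s.Q w t) fun _ => nulW h _).2

end kap

end

end Pool.Agent.Helper7.FIN
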